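import Pool.Agent.Run7.h982.CF.Iface

/-!
# DIG (project CF of helper982): the value determines the digits
-/

set_option autoImplicit false

open Set Filter Topology

namespace Pool.Agent.Run7.h56.CF

open Pool.Agent.Run7.h982.CF

/-- `1/(k+3)!` -/
noncomputable def t (k : ℕ) : ℝ := 1 / (Nat.factorial (k + 3) : ℝ)

lemma b_pos (k : ℕ) : 0 < b k := by
  unfold b
  positivity

lemma t_sub (k : ℕ) : t k - t (k + 1) = ((k : ℝ) + 3) * b k := by
  unfold t b
  have h1 : ((Nat.factorial (k + 4) : ℕ) : ℝ) = ((k : ℝ) + 4) * (Nat.factorial (k + 3) : ℝ) := by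
    rw [Nat.factorial_succ (k + 3)]
    push_cast
    ring
  rw [show k + 1 + 3 = k + 4 by ring, h1]
  have h2 : (Nat.factorial (k + 3) : ℝ) ≠ 0 := by positivity
  have h3 : (k : ℝ) + 4 ≠ 0 := by positivity
  field_simp
  ring

lemma t_tendsto : Tendsto t atTop (𝓝 0) := by
  have h1 : Tendsto (fun k : ℕ => 1 / ((k : ℝ) + 1)) atTop (𝓝 0) := tendsto_one_div_add_atTop_nhds_zero_nat
  refine squeeze_zero (fun k => by unfold t; positivity) (fun k => ?_) h1
  unfold t
  refine one_div_le_one_div_of_le (by positivity) ?_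
  have h2 : k + 1 ≤ Nat.factorial (k + 3) := le_trans (by omega) (Nat.self_le_factorial (k + 3))
  exact_mod_cast h2

lemma hasSum_tail (j : ℕ) : HasSum (fun i : ℕ => (((i + (j + 1) : ℕ) : ℝ) + 3) * b (i + (j + 1))) (b j) := by
  have h0 : ∀ i : ℕ, 0 ≤ (((i + (j + 1) : ℕ) : ℝ) + 3) * b (i + (j + 1)) := fun i =>
    mul_nonneg (by positivity) (b_pos _).le
  rw [hasSum_iff_tendsto_nat_of_nonneg h0]
  have h1 : ∀ n : ℕ, ∑ i ∈ Finset.range n, (((i + (j + 1) : ℕ) : ℝ) + 3) * b (i + (j + 1)) =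
      t (j + 1) - t (n + (j + 1)) := by
    intro n
    have h2 := Finset.sum_range_sub' (fun i => t (i + (j + 1))) n
    rw [zero_add] at h2
    rw [← h2]
    refine Finset.sum_congr rfl fun i _ => ?_
    rw [← t_sub, show i + (j + 1) + 1 = i + 1 + (j + 1) by ring]
  simp_rw [h1]
  have h3 : Tendsto (fun n : ℕ => t (n + (j + 1))) atTop (𝓝 0) :=
    t_tendsto.comp (tendsto_add_atTop_nat (j + 1))
  have h4 : b j = t (j + 1) - 0 := by
    rw [sub_zero]
    rfl
  rw [h4]
  exact tendsto_const_nhds.sub h3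

lemma summable_bd (d : ℕ → ℤ) (hd : ∀ j, |d j| ≤ j + 2) : Summable (fun j => (d j : ℝ) * b j) := by
  rw [← summable_nat_add_iff (0 + 1)]
  refine Summable.of_norm_bounded (hasSum_tail 0).summable fun i => ?_
  rw [Real.norm_eq_abs, abs_mul, abs_of_pos (b_pos _)]
  refine mul_le_mul_of_nonneg_right ?_ (b_pos _).le
  have h1 : ((|d (i + (0 + 1))| : ℤ) : ℝ) ≤ (((i + (0 + 1) : ℕ) : ℤ) + 2 : ℤ) := by exact_mod_cast hd _
  rw [Int.cast_abs] at h1
  refine h1.trans ?_
  push_cast
  linarith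

theorem t_DIG : S_DIG := by
  intro c c' hc hc' h
  have e1 : ∀ j, |c j| ≤ (j : ℤ) + 2 := fun j => by rw [abs_of_nonneg (hc j).1]; exact (hc j).2
  have e2 : ∀ j, |c' j| ≤ (j : ℤ) + 2 := fun j => by rw [abs_of_nonneg (hc' j).1]; exact (hc' j).2
  have hd : ∀ j, |c j - c' j| ≤ (j : ℤ) + 2 := fun j => by
    have := hc j
    have := hc' j
    rw [abs_le]
    omega
  by_contra hne
  have hex : ∃ j, c j ≠ c' j := by
    by_contra hcon
    push Not at hcon
    exact hne (funext hcon)
  classical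
  let j := Nat.find hex
  have hj : c j ≠ c' j := Nat.find_spec hex
  have hlt : ∀ i < j, c i = c' i := fun i hi => by
    by_contra h1
    exact Nat.find_min hex hi h1
  let f : ℕ → ℝ := fun i => ((c i - c' i : ℤ) : ℝ) * b i
  have hf : Summable f := summable_bd (fun i => c i - c' i) hd
  have hf0 : ∑' i, f i = 0 := by
    have h1 : ∑' i, f i = ∑' i, (c i : ℝ) * b i - ∑' i, (c' i : ℝ) * b i := by
      rw [← (summable_bd c e1).tsum_sub (summable_bd c' e2)]
      refine tsum_congr fun i => ?_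
      simp only [f]
      push_cast
      ring
    rw [h1, h, sub_self]
  have h2 := hf.sum_add_tsum_nat_add (j + 1)
  rw [hf0, Finset.sum_range_succ, Finset.sum_eq_zero (fun i hi => by
    simp only [f]
    rw [hlt i (Finset.mem_range.mp hi), sub_self]
    simp), zero_add] at h2
  -- the tail
  have h3 : ∀ i, |f (i + (j + 1))| ≤ (((i + (j + 1) : ℕ) : ℝ) + 2) * b (i + (j + 1)) := by
    intro i
    simp only [f]
    rw [abs_mul, abs_of_pos (b_pos _)]
    refine mul_le_mul_of_nonneg_right ?_ (b_pos _).le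
    have h1 : ((|c (i + (j + 1)) - c' (i + (j + 1))| : ℤ) : ℝ) ≤ (((i + (j + 1) : ℕ) : ℤ) + 2 : ℤ) := by
      exact_mod_cast hd _
    rw [Int.cast_abs] at h1
    refine h1.trans (le_of_eq ?_)
    push_cast
    ring
  have h4 : Summable (fun i => |f (i + (j + 1))|) :=
    Summable.of_nonneg_of_le (fun i => abs_nonneg _) (fun i => (h3 i).trans
      (mul_le_mul_of_nonneg_right (by linarith) (b_pos _).le)) (hasSum_tail j).summable
  have h5 : ∑' i, |f (i + (j + 1))| < b j := by
    rw [← (hasSum_tail j).tsum_eq]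
    refine h4.tsum_lt_tsum (i := 0) (fun i => (h3 i).trans
      (mul_le_mul_of_nonneg_right (by linarith) (b_pos _).le)) ?_ (hasSum_tail j).summable
    exact (h3 0).trans_lt (mul_lt_mul_of_pos_right (by linarith) (b_pos _))
  have h6 : |∑' i, f (i + (j + 1))| ≤ ∑' i, |f (i + (j + 1))| := by
    have := norm_tsum_le_tsum_norm (f := fun i => f (i + (j + 1))) (by simpa [Real.norm_eq_abs] using h4)
    simpa [Real.norm_eq_abs] using this
  have h7 : |f j| = |∑' i, f (i + (j + 1))| := by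
    have : f j = -∑' i, f (i + (j + 1)) := by linarith
    rw [this, abs_neg]
  have h8 : b j ≤ |f j| := by
    simp only [f]
    rw [abs_mul, abs_of_pos (b_pos _)]
    have h9 : (1 : ℤ) ≤ |c j - c' j| := Int.one_le_abs (sub_ne_zero.mpr hj)
    have h10 : (1 : ℝ) ≤ |((c j - c' j : ℤ) : ℝ)| := by
      rw [← Int.cast_abs]
      exact_mod_cast h9
    nlinarith [b_pos j]
  linarith

end Pool.Agent.Run7.h56.CF
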